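import Pool.Agent.H750.Twist

/-!
# Symmetric forms over integral group rings: reduction to quadratic forms, signatures modulo eight

Let `Γ` be any group and `A` the matrix of a nonsingular symmetric form on a free module over `ℤΓ`
(`A* = A` for the involution `g ↦ g⁻¹`). It is called visible if the coefficients of the diagonal
entries of `A` at the elements of order two are even (after M. Weiss). If `Γ` has no elements of order
two, for example if `Γ` is torsion-free, then all symmetric forms are visible.

1. For an integer `N` there are an orthogonal sum `E` of forms `⟨1⟩`, `⟨-1⟩` (`N` is the number of the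
   `⟨1⟩` minus the number of the `⟨-1⟩`) and an even form `B = ψ + ψ*`, that is, a quadratic form, such
   that `A ⊥ E ≅ B ⊥ ⟨1⟩`, if and only if `A` is visible and `sign(ε(A)) + N ≡ 1` modulo eight, where
   `ε(A)` is the integral form which is induced by the augmentation. In particular (`N = 1`) the form
   `A` is stably equivalent to a quadratic form if and only if it is visible and the signature of
   `ε(A)` is divisible by eight. So for *every* group `Γ` the cokernel of the symmetrisation map from
   `L_0^h(ℤΓ)` to the Witt group of the visible nonsingular symmetric forms is cyclic of order eight,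
   generated by `⟨1⟩`, and detected by the signature over `ℤ`; for groups without elements of order
   two this is the cokernel of the symmetrisation map to the Witt group of all nonsingular symmetric
   forms.
2. If `A` is visible then for every representation `ρ` of `Γ` by isometries of a unimodular symmetric
   lattice `(ℤ^d, b)` the signature of the twisted form `b ⊗_ρ A` is congruent to
   `sign(b) sign(ε(A))` modulo eight. For example the signature of a form over the group ring of a
   group without elements of order two is multiplicative modulo eight in finite coverings.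
3. If `A` is skew-symmetric (`A* = -A`, no condition on `Γ`) and `ρ` a representation of `Γ` by
   isometries of a unimodular skew-symmetric lattice `(ℤ^d, b)`, then the signature of the twisted
   form is divisible by eight.

The proof of 1: the square `q` of a characteristic vector with integral coordinates can be changed by
the squares of vectors of odd augmentation. The obstruction to making it zero is a class in
`H_1(Γ; ℤ/2)` and an integer. For a homomorphism `f` from `Γ` to the group of order two, the value of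
`f` on the class is determined by the two integral forms `S`, `S'` induced by the augmentation and by
the sign character of `f`, and it vanishes because `S` and `S'` have the determinants `± 1`, by a
computation with the traces of `S⁻¹ (S - S')` and its square. The integer is computed with van der
Blij's theorem, which is proved with Gauss sums.
-/

set_option autoImplicit false

namespace Pool.Agent.Results.MP_98022b_gt.VisibleSymmetricForms

open Matrix Pool.Agent.R791 Pool.Agent.H750

section lemmas

variable {Γ : Type*} [Group Γ] {ι κ : Type*} [Fintype ι] [DecidableEq ι] [Fintype κ] [DecidableEq κ]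

theorem signForm_one : signForm Γ (fun _ : Fin 1 => 1) = 1 := by
  unfold signForm
  ext i j
  rw [Subsingleton.elim i 0, Subsingleton.elim j 0]
  simp

theorem signForm_adj {k : ℕ} (e : Fin k → ℤˣ) : adj (signForm Γ e) = signForm Γ e := by
  ext1 i j
  rw [adj_apply]
  unfold signForm
  by_cases h : i = j
  · subst h; rw [diagonal_apply_eq, bar_intCast]
  · rw [diagonal_apply_ne _ h, diagonal_apply_ne _ (Ne.symm h), bar_zero]

theorem signForm_unit {k : ℕ} (e : Fin k → ℤˣ) : IsUnit (signForm Γ e) := by
  have h : signForm Γ e * signForm Γ e = 1 := by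
    unfold signForm
    rw [diagonal_mul_diagonal, ← diagonal_one]
    congr 1
    ext1 i
    rw [← Int.cast_mul]
    rcases Int.units_eq_one_or (e i) with h | h <;> rw [h] <;> simp
  exact ⟨⟨_, _, h, h⟩, rfl⟩

theorem osum_adj {A : Matrix ι ι (MonoidAlgebra ℤ Γ)} {B : Matrix κ κ (MonoidAlgebra ℤ Γ)}
    (hA : adj A = A) (hB : adj B = B) : adj (osum A B) = osum A B := by
  unfold osum; rw [adj_fromBlocks, hA, hB, adj_zero, adj_zero]

theorem osum_unit {A : Matrix ι ι (MonoidAlgebra ℤ Γ)} {B : Matrix κ κ (MonoidAlgebra ℤ Γ)}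
    (hA : IsUnit A) (hB : IsUnit B) : IsUnit (osum A B) := by
  obtain ⟨U, rfl⟩ := hA
  obtain ⟨V, rfl⟩ := hB
  refine ⟨⟨osum U.val V.val, osum (U⁻¹).val (V⁻¹).val, ?_, ?_⟩, rfl⟩
  · unfold osum; rw [Matrix.fromBlocks_multiply]; simp
  · unfold osum; rw [Matrix.fromBlocks_multiply]; simp

theorem sig_twist_one (A : Matrix ι ι (MonoidAlgebra ℤ Γ)) :
    sig (twist (1 : Matrix (Fin 1) (Fin 1) ℤ) (1 : Γ →* Matrix (Fin 1) (Fin 1) ℤ) A) =
      sig (augMat A) := by
  rw [← sig_submatrix (augMat A) (Equiv.prodUnique ι (Fin 1))]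
  congr 1
  ext x y
  rw [Matrix.submatrix_apply]
  unfold twist augMat
  rw [Matrix.of_apply, Matrix.of_apply, Matrix.one_mul, Subsingleton.elim x.2 0,
    Subsingleton.elim y.2 0, Finsupp.sum, Finsupp.sum, Matrix.sum_apply]
  exact Finset.sum_congr rfl fun g _ => by simp

theorem exists_split {n : ℕ} (A : Matrix (Fin n) (Fin n) (MonoidAlgebra ℤ Γ)) (hu : IsUnit A)
    (hA : adj A = A) (hv : Visible A) (N : ℤ) (hN : (8 : ℤ) ∣ sig (augMat A) + N - 1) :
    ∃ (k : ℕ) (e : Fin k → ℤˣ) (m : ℕ) (B : Matrix (Fin m) (Fin m) (MonoidAlgebra ℤ Γ)),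
      ∑ i, (e i : ℤ) = N ∧ IsEvenForm B ∧
        Isometric (osum A (signForm Γ e)) (osum B (signForm Γ (fun _ : Fin 1 => 1))) := by
  obtain ⟨t, ht, hmem⟩ := exists_char A hu hA hv
  obtain ⟨N0, hN0⟩ := rep_of_mem ((oddNorms Γ).neg_mem hmem)
  have h8 : (8 : ℤ) ∣ sig (augMat A) + N0 := by
    obtain ⟨k, e, a, ha, hq, hs⟩ := hN0
    rw [← hs]
    exact (structure_theorem A hA hv t ht e a ha (by rw [← hq]; abel)).2 hu
  obtain ⟨j, hj⟩ : (8 : ℤ) ∣ (N - 1) - N0 := by
    rw [show (N - 1) - N0 = (sig (augMat A) + N - 1) - (sig (augMat A) + N0) by ring]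
    exact dvd_sub hN h8
  have hN1 := rep_shift hN0 j
  rw [show N0 + 8 * j = N - 1 by linarith] at hN1
  obtain ⟨k, e, a, ha, hq, hs⟩ := hN1
  obtain ⟨⟨B, hB, hiso⟩, -⟩ := structure_theorem A hA hv t ht e a ha (by rw [← hq]; abel)
  refine ⟨k + 1, Fin.append e (fun _ => 1), n + k,
    B.submatrix finSumFinEquiv.symm finSumFinEquiv.symm, ?_, ?_, ?_⟩
  · rw [Fin.sum_univ_add]
    simp only [Fin.append_left, Fin.append_right]
    rw [hs]; simp
  · obtain ⟨ψ, rfl⟩ := hB
    exact ⟨ψ.submatrix finSumFinEquiv.symm finSumFinEquiv.symm, rfl⟩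
  · rw [signForm_one]
    have h1 : Isometric (osum A (signForm Γ (Fin.append e (fun _ : Fin 1 => 1))))
        (osum (osum A (signForm Γ e)) (1 : Matrix (Fin 1) (Fin 1) (MonoidAlgebra ℤ Γ))) := by
      have h2 := Isometric.submatrix (osum A (signForm Γ (Fin.append e (fun _ : Fin 1 => 1))))
        ((Equiv.sumAssoc (Fin n) (Fin k) (Fin 1)).trans
          (Equiv.sumCongr (Equiv.refl (Fin n)) finSumFinEquiv))
      convert h2 using 1
      ext1 x y
      have hne1 : ∀ (i : Fin k) (j : Fin 1), (Fin.castAdd 1 i) ≠ (Fin.natAdd k j) := by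
        intro i j h
        have := congrArg Fin.val h
        simp at this
        omega
      rcases x with (x | x) | x <;> rcases y with (y | y) | y
      · rfl
      · rfl
      · rfl
      · rfl
      · change signForm Γ e x y = signForm Γ _ (Fin.castAdd 1 x) (Fin.castAdd 1 y)
        unfold signForm
        by_cases h : x = y
        · subst h; rw [diagonal_apply_eq, diagonal_apply_eq, Fin.append_left]
        · rw [diagonal_apply_ne _ h, diagonal_apply_ne _ (fun h2 => h (Fin.castAdd_injective _ _ h2))]
      · change (0 : MonoidAlgebra ℤ Γ) = signForm Γ _ (Fin.castAdd 1 x) (Fin.natAdd k y)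
        unfold signForm
        rw [diagonal_apply_ne _ (hne1 x y)]
      · rfl
      · change (0 : MonoidAlgebra ℤ Γ) = signForm Γ _ (Fin.natAdd k x) (Fin.castAdd 1 y)
        unfold signForm
        rw [diagonal_apply_ne _ (Ne.symm (hne1 y x))]
      · change (1 : Matrix (Fin 1) (Fin 1) (MonoidAlgebra ℤ Γ)) x y =
          signForm Γ _ (Fin.natAdd k x) (Fin.natAdd k y)
        unfold signForm
        rw [Subsingleton.elim x 0, Subsingleton.elim y 0, diagonal_apply_eq, Fin.append_right]
        simp
    have h3 : Isometric B (B.submatrix finSumFinEquiv.symm finSumFinEquiv.symm) :=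
      Isometric.submatrix B _
    exact (h1.trans hiso).trans (h3.osum (Isometric.refl _))

/-- The signatures of the two sides of an isometry `A ⊥ E ≅ B ⊥ ⟨1⟩`. -/
theorem sig_of_split {n m k d : ℕ} {A : Matrix (Fin n) (Fin n) (MonoidAlgebra ℤ Γ)}
    (hu : IsUnit A) (hA : adj A = A) {e : Fin k → ℤˣ}
    {B : Matrix (Fin m) (Fin m) (MonoidAlgebra ℤ Γ)} (hB : IsEvenForm B)
    (h : Isometric (osum A (signForm Γ e)) (osum B (signForm Γ (fun _ : Fin 1 => 1))))
    (b : Matrix (Fin d) (Fin d) ℤ) (hb : IsUnit b) (hbs : bᵀ = b)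
    (ρ : Γ →* Matrix (Fin d) (Fin d) ℤ) (hρ : ∀ g, (ρ g)ᵀ * b * ρ g = b) :
    sig (twist b ρ A) + (∑ i, (e i : ℤ)) * sig b = sig (twist b ρ B) + sig b ∧
      (8 : ℤ) ∣ sig (twist b ρ B) := by
  have hBs := adj_even B hB
  have h1 := sig_twist_congr ρ b hρ h
  have h2 := sig_twist_osum ρ b hρ hbs hA (signForm_adj e)
  have h3 := sig_twist_osum ρ b hρ hbs hBs (signForm_adj (Γ := Γ) (fun _ : Fin 1 => 1))
  have h4 := h1.1
  rw [h2.1, h3.1, sig_twist_signForm ρ b hbs, sig_twist_signForm ρ b hbs] at h4
  have h5 := (h3.2 (h1.2 (twist_unit ρ b hb (osum_unit hu (signForm_unit e))))).2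
  refine ⟨?_, sig_even _ h5 (twist_symm ρ b hρ hbs hBs) (twist_even ρ b hρ hbs hB)⟩
  simp only [Finset.univ_unique, Finset.sum_const, Finset.card_singleton, Units.val_one, one_smul,
    one_mul] at h4
  linarith

end lemmas

theorem result (Γ : Type*) [Group Γ] (n : ℕ) (A : Matrix (Fin n) (Fin n) (MonoidAlgebra ℤ Γ))
    (hu : IsUnit A) :
    (adj A = A →
      -- (1) reduction to even forms
      (∀ N : ℤ, (∃ (k : ℕ) (e : Fin k → ℤˣ) (m : ℕ)
          (B : Matrix (Fin m) (Fin m) (MonoidAlgebra ℤ Γ)),
          ∑ i, (e i : ℤ) = N ∧ IsEvenForm B ∧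
            Isometric (osum A (signForm Γ e)) (osum B (signForm Γ (fun _ : Fin 1 => 1)))) ↔
        Visible A ∧ (8 : ℤ) ∣ sig (augMat A) + N - 1) ∧
      -- (2) signatures modulo eight
      (Visible A → ∀ (d : ℕ) (b : Matrix (Fin d) (Fin d) ℤ), IsUnit b → bᵀ = b →
        ∀ ρ : Γ →* Matrix (Fin d) (Fin d) ℤ, (∀ g, (ρ g)ᵀ * b * ρ g = b) →
          (8 : ℤ) ∣ sig (twist b ρ A) - sig b * sig (augMat A))) ∧
    -- (3) skew-symmetric forms
    (adj A = -A → ∀ (d : ℕ) (b : Matrix (Fin d) (Fin d) ℤ), IsUnit b → bᵀ = -b →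
      ∀ ρ : Γ →* Matrix (Fin d) (Fin d) ℤ, (∀ g, (ρ g)ᵀ * b * ρ g = b) →
        (8 : ℤ) ∣ sig (twist b ρ A)) := by
  refine ⟨fun hA => ⟨fun N => ⟨?_, fun h => exists_split A hu hA h.1 N h.2⟩, ?_⟩, ?_⟩
  · rintro ⟨k, e, m, B, hs, hB, hiso⟩
    have hBs := adj_even B hB
    have hYs : adj (osum B (signForm Γ (fun _ : Fin 1 => 1))) =
        osum B (signForm Γ (fun _ : Fin 1 => 1)) := osum_adj hBs (signForm_adj _)
    have hYv : Visible (osum B (signForm Γ (fun _ : Fin 1 => 1))) := by
      intro i s hs1 hss
      rcases i with i | i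
      · exact visible_of_even B hB i s hss
      · unfold osum signForm
        rw [Matrix.fromBlocks_apply₂₂, diagonal_apply_eq, coeff_intCast_ne _ _ hs1]
        exact Even.zero
    have hXv : Visible (osum A (signForm Γ e)) := by
      obtain ⟨P, Q, h1, h2, h3⟩ := hiso.symm
      rw [← h3]
      exact visible_congr _ hYs hYv P
    refine ⟨fun i s hs1 hss => hXv (Sum.inl i) s hs1 hss, ?_⟩
    have h1 := sig_of_split hu hA hB hiso (1 : Matrix (Fin 1) (Fin 1) ℤ) isUnit_one
      Matrix.transpose_one (1 : Γ →* Matrix (Fin 1) (Fin 1) ℤ) (by intro g; simp)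
    rw [sig_twist_one, hs] at h1
    have h2 : sig (1 : Matrix (Fin 1) (Fin 1) ℤ) = 1 := by
      rw [← diagonal_one, sig_diagonal]; simp
    rw [h2] at h1
    have h3 : sig (augMat A) + N - 1 = sig (twist (1 : Matrix (Fin 1) (Fin 1) ℤ)
        (1 : Γ →* Matrix (Fin 1) (Fin 1) ℤ) B) := by linarith [h1.1]
    rw [h3]; exact h1.2
  · intro hv d b hb hbs ρ hρ
    obtain ⟨k, e, m, B, hs, hB, hiso⟩ := exists_split A hu hA hv (1 - sig (augMat A)) (by
      rw [show sig (augMat A) + (1 - sig (augMat A)) - 1 = 0 by ring]; exact dvd_zero _)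
    have h1 := sig_of_split hu hA hB hiso b hb hbs ρ hρ
    rw [hs] at h1
    have h3 : sig (twist b ρ A) - sig b * sig (augMat A) = sig (twist b ρ B) := by
      linarith [h1.1]
    rw [h3]; exact h1.2
  · intro hA d b hb hbs ρ hρ
    exact sig_even _ (twist_unit ρ b hb hu) (twist_symm' ρ b hρ hbs hA) (twist_skew ρ b hρ hbs hA)

end Pool.Agent.Results.MP_98022b_gt.VisibleSymmetricForms
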