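import Pool.Agent.H750.K.Formula

/-!
# The quadratic L-group and the Witt group of symmetric forms of an integral group ring

Let `Γ` be any group. `L0 Γ` is the quadratic L-group `L_0^h(ℤΓ)` (stable isometry classes of
nonsingular even forms on free modules) and `Wv Γ` is the Witt group of the nonsingular visible
symmetric forms (visible: the coefficients of the diagonal entries at the elements of order two are
even; no condition if `Γ` has no elements of order two, for example for the fundamental group of an
aspherical closed manifold). The theorem is the exact sequence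

  `H_2(Γ; ℤ/2) → L_0^h(ℤΓ) → W_vis(ℤΓ) → ℤ/8 → 0`

for every group `Γ` (the maps are `κ`, the symmetrisation and the signature modulo eight), with an
explicit formula for `κ`: for a cycle `∑ (g_i, h_i)` of the bar complex
modulo two there is `w` with `∑ (g_i - 1)(h_i - 1) + 2 w = 0`, and `κ` maps the class of the cycle to
the class of the even form `H - (H v*)(v H)`, where `H` is the hyperbolic form of rank `2 (n + 1)` and
`v = (g_1 - 1, ..., g_n - 1, 2; h_1⁻¹ - 1, ..., h_n⁻¹ - 1, w*)`, a vector with `v H v* = 0`.

Outline of the proof. Let `J` be the ideal of the elements of even augmentation and `T` the quotient of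
`J ⊗ J` by the involution. For an isotropic vector `v` of `J ⊗ H` the forms `H - (H v*)(v H)` and `H`
become isometric after adding a metabolic plane, and the class of the form in `L_0` is an additive
invariant of the class of `v` in the kernel of the norm map from `T` to `ℤΓ`. It vanishes on the
elements `2 ⊗ (t - t̄)` and `(g - 1) ⊗ (g + 1)`, and the quotient is a quotient of `H_2(Γ; ℤ/2)`.
Conversely a quadratic form which vanishes in the Witt group is, after stabilisation, the complement of
a metabolic plane in a sum of hyperbolic planes and the standard metabolic plane. The isotropic vector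
of that plane is congruent to the standard one modulo `J`, by an argument with characteristic vectors,
and with Eichler transformations and the isometries given by the units `± g` it is moved to a vector
which is orthogonal to the standard one. At `W_vis` the exactness is the theorem of
`MP_98022b_gt.VisibleSymmetricForms`.
-/

set_option autoImplicit false

namespace Pool.Agent.Results.MP_98022b_gt.QuadraticKernel

open Matrix Pool.Agent.R791 Pool.Agent.H750

theorem result (Γ : Type*) [Group Γ] :
    ∃ (κ : HH2 Γ →+ L0 Γ) (σ : Wv Γ →+ ZMod 8),
      -- (1) exactness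
      (∀ x, symmetrisation Γ x = 0 ↔ ∃ y, κ y = x) ∧ (∀ x, σ x = 0 ↔ ∃ y, symmetrisation Γ y = x) ∧
      (∀ x, ∃ y, σ y = x) ∧
      -- (2) the signature modulo eight
      (∀ A : VForm Γ, σ (Wv.mk A) = ((sig (augMat A.mat) : ℤ) : ZMod 8)) ∧
      -- (3) the formula for the homomorphism from the homology group
      (∀ x : HH2 Γ, ∃ (n : ℕ) (g h : Fin n → Γ) (w : MonoidAlgebra ℤ Γ)
        (hz : chainOf g h ∈ ZZ2 Γ), Corr g h w ∧ x = HH2.mk (chainOf g h) hz) ∧
      (∀ (n : ℕ) (g h : Fin n → Γ) (w : MonoidAlgebra ℤ Γ) (hz : chainOf g h ∈ ZZ2 Γ),
        Corr g h w → ∃ (he : IsEvenForm (kform g h w)) (hu : IsUnit (kform g h w)),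
          κ (HH2.mk (chainOf g h) hz) = L0.cls (kform g h w) he hu) := by
  refine ⟨kap Γ, sigEight Γ, fun x => ⟨exists_kappa, ?_⟩, fun x => ?_, sigEight_surj,
    fun A => rfl, exists_rep, fun n g h w hz hw => kappa_formula g h w hz hw⟩
  · rintro ⟨y, rfl⟩
    exact symmetrisation_kappa y
  · rw [← AddMonoidHom.mem_ker, ← range_symmetrisation, AddMonoidHom.mem_range]

end Pool.Agent.Results.MP_98022b_gt.QuadraticKernel
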