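import Pool.Agent.H748.Sig.Final

/-!
# Signatures of nonsingular Hermitian forms over group rings

Let `G` be a group and `A` a matrix over `ℂ[G]` with `A = A*` which is invertible over `ℂ[G]`
(a nonsingular Hermitian form, for example a symmetrisation of a form over `ℤ[G]` representing a
class of `L₀(ℤG)`, or `√-1` times a skew-Hermitian one), or which has uniformly bounded inverses in
all unitary representations of the finitely generated group `G` on the spaces `ℂ ^ d`.

(1) Let `ρ`, `σ` be unitary representations of `G` of dimensions `d`, `e`, where the elements which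
act nontrivially in `ρ` are detected by torsion-free nilpotent quotients of finitely generated
subgroups. Then the signature of `A` in `ρ ⊗ σ` is `d` times the signature of `A` in `σ`.

(2) In particular, if all finitely generated subgroups of `G` are residually torsion-free
nilpotent, then the signature of `A` in every unitary representation `ρ : G → U(d)` is `d` times
the signature of the augmentation of `A`, and the same holds for the regular representation: the
`L²`-signature of `A`, which is the limit of the canonical traces of `P_k(A)` for real polynomials
`P_k` converging to the sign function, is the signature of the augmentation.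

If the assembly map is surjective for the torsion-free group `G`, this has to be so by Atiyah's
theorems on signatures with flat unitary coefficients and on the `L²`-index.
-/

set_option autoImplicit false

namespace Pool.Agent.Results.MP_98022b_gt.SignatureRigidity

open Pool.Agent.H748.Sig Matrix Polynomial Filter
open scoped Kronecker

universe u

/-- the elements acting nontrivially in `ρ` are detected by torsion-free nilpotent quotients of
arbitrarily large finitely generated subgroups -/
def TFNDetected {G : Type u} [Group G] {d : ℕ} (ρ : G →* unitaryGroup (Fin d) ℂ) : Prop :=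
  ∀ S : Finset G, ∃ H : Subgroup G, H.FG ∧ (∀ s ∈ S, s ∈ H) ∧
    ∀ h : H, ρ h ≠ 1 → ∃ (N : Subgroup H) (_ : N.Normal), TFN (H ⧸ N) ∧ h ∉ N

theorem result {G : Type u} [Group G] {n : ℕ} (A : Matrix (Fin n) (Fin n) (MonoidAlgebra ℂ G))
    (hA : IsHerm A) (hi : Inv A) :
    (∀ (d e : ℕ) (ρ : G →* unitaryGroup (Fin d) ℂ) (σ : G →* unitaryGroup (Fin e) ℂ),
      TFNDetected ρ →
        signature (value (fun g => (ρ g).val ⊗ₖ (σ g).val) A) =
          d * signature (value (fun g => (σ g).val) A)) ∧
    ((∀ H : Subgroup G, H.FG → ∀ h : H, h ≠ 1 → ∃ (N : Subgroup H) (_ : N.Normal),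
        TFN (H ⧸ N) ∧ h ∉ N) →
      (∀ (d : ℕ) (ρ : G →* unitaryGroup (Fin d) ℂ),
        signature (value (fun g => (ρ g).val) A) = d * signature (augm A)) ∧
      ∀ P : ℕ → ℝ[X],
        (∀ a b ε : ℝ, 0 < a → 0 < ε → ∀ᶠ k in atTop, ∀ x : ℝ, a ≤ |x| → |x| ≤ b →
          |(P k).eval x - ((SignType.sign x : SignType) : ℝ)| ≤ ε) →
        Tendsto (fun k => ∑ i, (aeval A (P k) i i).coeff 1) atTop
          (nhds ((signature (augm A) : ℤ) : ℂ))) := by
  refine ⟨?_, fun hG => ?_⟩
  · intro d e ρ σ hρ
    have h1 := part1 hA hi ρ σ hρ
    rw [← value_eq, ← value_eq, ← signature_eq, ← signature_eq] at h1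
    exact h1
  · obtain ⟨h1, h2⟩ := part2 hG hA hi
    constructor
    · intro d ρ
      have h3 := h1 d ρ
      rw [← value_eq, ← augm_eq, ← signature_eq, ← signature_eq] at h3
      exact h3
    · rw [signature_eq, augm_eq]
      exact h2

end Pool.Agent.Results.MP_98022b_gt.SignatureRigidity
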